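import Pool.Agent.helper9.HQ.Spec

set_option autoImplicit false

open scoped Classical

namespace Pool.Agent.helper9.HQ

open Finset
open Pool.Agent.helper65.HC (V IsEig IsTop lam)

/-- `l = cC (l x / (2 + x))` if `l (4 - 3 x^2) = 4 - x^2` -/
theorem FB_cC (l x : ℝ) (hx : 0 ≤ x) (h3 : 0 < 4 - 3 * x ^ 2) (hl : l * (4 - 3 * x ^ 2) = 4 - x ^ 2) :
    cC (l * x / (2 + x)) = l := by
  have h2x : (2 + x) ≠ 0 := by linarith
  obtain ⟨D, hD⟩ : ∃ D, D = 4 - 3 * x ^ 2 := ⟨_, rfl⟩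
  rw [← hD] at h3 hl
  have hne : D ≠ 0 := h3.ne'
  have hl' : l = (4 - x ^ 2) / D := by rw [eq_div_iff hne, hl]
  have ht : l * x / (2 + x) = (2 * x - x ^ 2) / D := by
    rw [hl', div_mul_eq_mul_div, div_div, div_eq_div_iff (mul_ne_zero hne h2x) hne]
    ring
  unfold cC
  rw [ht]
  have hsq : 1 - 4 * ((2 * x - x ^ 2) / D) + 12 * ((2 * x - x ^ 2) / D) ^ 2
      = ((4 - 4 * x + 3 * x ^ 2) / D) ^ 2 := by
    have h1 : 1 - 4 * ((2 * x - x ^ 2) / D) + 12 * ((2 * x - x ^ 2) / D) ^ 2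
        = (D ^ 2 - 4 * (2 * x - x ^ 2) * D + 12 * (2 * x - x ^ 2) ^ 2) / D ^ 2 := by
      field_simp
    rw [h1, div_pow, hD]
    congr 1
    ring
  rw [hsq, Real.sqrt_sq (div_nonneg (by nlinarith [sq_nonneg (3 * x - 2)]) h3.le), hl']
  have h2 : (1 + 2 * ((2 * x - x ^ 2) / D) + (4 - 4 * x + 3 * x ^ 2) / D) / 2
      = (D + 2 * (2 * x - x ^ 2) + (4 - 4 * x + 3 * x ^ 2)) / (2 * D) := by
    field_simp
  rw [h2, div_eq_div_iff (by positivity) hne, hD]
  ring

theorem FB_key (Y s w P : ℝ) (hs0 : 0 ≤ s) (hPz : P * (1 - s ^ 2) = 1 - Y)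
    (hstar : Y * (1 - s) ≤ 2 * s ^ 2) (hw : w = 4 * (1 - P)) :
    w * (1 - s) ^ 2 ≤ 4 * s ^ 2 := by
  have h1 : (1 + s) * ((1 - P) * (1 - s) ^ 2) = (Y - s ^ 2) * (1 - s) := by
    have : (1 - P) * (1 - s ^ 2) = Y - s ^ 2 := by linarith [hPz]
    calc (1 + s) * ((1 - P) * (1 - s) ^ 2) = (1 - P) * (1 - s ^ 2) * (1 - s) := by ring
      _ = _ := by rw [this]
  have h2 : (1 + s) * ((1 - P) * (1 - s) ^ 2) ≤ (1 + s) * s ^ 2 := by
    rw [h1]; nlinarith
  have h3 := le_of_mul_le_mul_left h2 (by linarith)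
  rw [hw]
  linarith

theorem FB (hSTAR : STAR_stmt) (hCM : CM_stmt) : FB_stmt := by
  intro n u l al hn hu hl1 hP hal hal1
  set z := zz n u with hz
  set Y := YY n u with hY
  set P : ℝ := (1 - (n - 1) * u) * (1 + u) ^ (n - 1) with hPdef
  have hn2 : (2 : ℝ) ≤ n := by exact_mod_cast hn
  have h1u : 0 < 1 + u := by linarith
  have hE : 0 < (1 + u) ^ (n - 1) := pow_pos h1u _
  have hpow : (1 + u) ^ n = (1 + u) ^ (n - 1) * (1 + u) := (pow_sub_one_mul (by omega) _).symm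
  have hzpos : 0 < z := by
    rw [hz]; unfold zz
    exact div_pos (by positivity) (pow_pos h1u _)
  have hYpos : 0 < Y := by
    rw [hY]; unfold YY
    have : 0 < (n : ℝ) - 1 := by linarith
    have h3 : (0 : ℝ) < n := by linarith
    positivity
  have hPz : P * z = 1 - Y := by
    rw [hPdef, hz, hY]; unfold zz YY
    rw [hpow]
    field_simp
    ring
  have hstar := hSTAR n u hn hu
  rw [← hz, ← hY] at hstar
  have hz1 : z < 1 := by
    by_contra hge
    rw [not_lt] at hge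
    rw [Real.sqrt_eq_zero_of_nonpos (by linarith), sub_zero, mul_one] at hstar
    linarith
  set s := √(1 - z) with hs
  have hs2 : s ^ 2 = 1 - z := Real.sq_sqrt (by linarith)
  have hs0 : 0 ≤ s := Real.sqrt_nonneg _
  have hs1 : s < 1 := by nlinarith
  have h3l : 0 < 3 * l - 1 := by linarith
  set w : ℝ := 4 * (1 - P) with hw
  have hwl : w * (3 * l - 1) = 4 * (l - 1) := by rw [hw]; linarith
  have hw0 : 0 < w := by
    by_contra hle
    rw [not_lt] at hle
    nlinarith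
  have hw3 : 0 < 4 - 3 * w := by nlinarith
  set x := √w with hx
  have hx2 : x ^ 2 = w := Real.sq_sqrt hw0.le
  have hx0 : 0 ≤ x := Real.sqrt_nonneg _
  have hcC := FB_cC l x hx0 (by rw [hx2]; exact hw3) (by rw [hx2]; linarith)
  have hkey := FB_key Y s w P hs0 (by rw [hs2]; linarith [hPz]) (by rw [hs2]; exact hstar) hw
  have hle : x * (1 - s) ≤ 2 * s := by
    apply abs_le_of_sq_le_sq' ?_ (by linarith) |>.2
    rw [mul_pow, hx2]
    linarith [hkey]
  have hl0 : 0 < l := by linarith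
  have hsq : √al = l * s := by
    rw [hal, ← hs2, ← mul_pow, Real.sqrt_sq (by positivity)]
  have ht0 : l * x / (2 + x) ≤ √al := by
    rw [hsq, div_le_iff₀ (by linarith), mul_assoc]
    apply mul_le_mul_of_nonneg_left _ hl0.le
    linarith
  have hs_le : √al ≤ 1 := Real.sqrt_le_one.2 hal1
  have h5 := hCM.2.1 (l * x / (2 + x)) (√al) (by positivity) ht0 hs_le
  rw [hcC] at h5
  exact h5

end Pool.Agent.helper9.HQ
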